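import Pool.Agent.H49.NB.FinD

set_option autoImplicit false

namespace Pool.Agent.Results.MP_363a78_co.AlmostAllRegular

open Finset

/-- For every `d ≥ 1` and `ε > 0`, for all large `n`, all but a fraction `ε` of the `d`-regular graphs on the vertices
`0, ..., n - 1` have an internal partition whose parts differ in size by at most `1` if `d` is even and by at most `2 d`
if `d` is odd. -/
theorem result (d : ℕ) (hd : 1 ≤ d) (ε : ℝ) (hε : 0 < ε) : ∃ n₀ : ℕ, ∀ n ≥ n₀,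
    (Nat.card {G : SimpleGraph (Fin n) // (∀ v, (G.neighborSet v).ncard = d) ∧
      ¬ ∃ A : Finset (Fin n), A.Nonempty ∧ Aᶜ.Nonempty ∧
        (Even d → |(A.card : ℤ) - (Aᶜ.card : ℤ)| ≤ 1) ∧ |(A.card : ℤ) - (Aᶜ.card : ℤ)| ≤ 2 * d ∧
        ∀ v : Fin n,
          (v ∈ A → (G.neighborSet v ∩ ↑Aᶜ).ncard ≤ (G.neighborSet v ∩ ↑A).ncard) ∧
          (v ∉ A → (G.neighborSet v ∩ ↑A).ncard ≤ (G.neighborSet v ∩ ↑Aᶜ).ncard)} : ℝ) ≤
      ε * (Nat.card {G : SimpleGraph (Fin n) // ∀ v, (G.neighborSet v).ncard = d} : ℝ) := by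
  classical
  obtain ⟨n₀, h₀⟩ := H49.NB.finD d hd ε hε
  refine ⟨n₀, fun n hn => ?_⟩
  have hdeg : ∀ (G : SimpleGraph (Fin n)) (v : Fin n),
      (G.neighborSet v).ncard = (univ.filter fun u => G.Adj v u).card := by
    intro G v
    rw [← Set.ncard_coe_finset]
    congr 1
    ext u
    simp
  have hin : ∀ (G : SimpleGraph (Fin n)) (v : Fin n) (B : Finset (Fin n)),
      (G.neighborSet v ∩ ↑B).ncard = (G.neighborFinset v ∩ B).card := by
    intro G v B
    rw [← Set.ncard_coe_finset]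
    congr 1
    ext u
    simp
  have hnear : ∀ G : SimpleGraph (Fin n), H49.NB.NearInt G (if Even d then 1 else 2 * d) →
      ∃ A : Finset (Fin n), A.Nonempty ∧ Aᶜ.Nonempty ∧
        (Even d → |(A.card : ℤ) - (Aᶜ.card : ℤ)| ≤ 1) ∧ |(A.card : ℤ) - (Aᶜ.card : ℤ)| ≤ 2 * d ∧
        ∀ v : Fin n,
          (v ∈ A → (G.neighborSet v ∩ ↑Aᶜ).ncard ≤ (G.neighborSet v ∩ ↑A).ncard) ∧
          (v ∉ A → (G.neighborSet v ∩ ↑A).ncard ≤ (G.neighborSet v ∩ ↑Aᶜ).ncard) := by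
    rintro G ⟨A, h1, h2, h3, h4⟩
    refine ⟨A, h1, h2, ?_, ?_, ?_⟩
    · intro he
      rw [if_pos he] at h3
      exact_mod_cast h3
    · by_cases he : Even d
      · rw [if_pos he] at h3
        have : (1 : ℤ) ≤ d := by exact_mod_cast hd
        have h3' : |(A.card : ℤ) - (Aᶜ.card : ℤ)| ≤ 1 := by exact_mod_cast h3
        linarith
      · rw [if_neg he] at h3
        exact_mod_cast h3
    · intro v
      rw [hin, hin]
      exact h4 v
  have h1 : Nat.card {G : SimpleGraph (Fin n) // ∀ v, (G.neighborSet v).ncard = d} = (H49.NB.Reg n d).card := by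
    rw [Nat.card_eq_fintype_card, Fintype.card_subtype]
    congr 1
    ext G
    simp [H49.NB.Reg, hdeg]
  have h2 : Nat.card {G : SimpleGraph (Fin n) // (∀ v, (G.neighborSet v).ncard = d) ∧
      ¬ ∃ A : Finset (Fin n), A.Nonempty ∧ Aᶜ.Nonempty ∧
        (Even d → |(A.card : ℤ) - (Aᶜ.card : ℤ)| ≤ 1) ∧ |(A.card : ℤ) - (Aᶜ.card : ℤ)| ≤ 2 * d ∧
        ∀ v : Fin n,
          (v ∈ A → (G.neighborSet v ∩ ↑Aᶜ).ncard ≤ (G.neighborSet v ∩ ↑A).ncard) ∧
          (v ∉ A → (G.neighborSet v ∩ ↑A).ncard ≤ (G.neighborSet v ∩ ↑Aᶜ).ncard)} ≤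
      ((H49.NB.Reg n d).filter fun G => ¬ H49.NB.NearInt G (if Even d then 1 else 2 * d)).card := by
    rw [Nat.card_eq_fintype_card, Fintype.card_subtype]
    refine Finset.card_le_card fun G hG => ?_
    rw [Finset.mem_filter] at hG ⊢
    refine ⟨?_, fun hcon => hG.2.2 (hnear G hcon)⟩
    simp only [H49.NB.Reg, Finset.mem_filter, Finset.mem_univ, true_and]
    intro v
    rw [← hdeg G v]
    exact hG.2.1 v
  rw [h1]
  refine le_trans ?_ (h₀ n hn)
  exact_mod_cast h2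

end Pool.Agent.Results.MP_363a78_co.AlmostAllRegular
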