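import Pool.Agent.H49.MX.Fin
import Pool.Agent.H49.FS.FinY

set_option autoImplicit false

namespace Pool.Agent.Results.MP_363a78_co.AsymptoticBisections

/-- (1) Let `d ≥ 2` and `a < (d + 2) / 2 - (d / 2π) arccos (2 √(d-1) / d)`, or let `(d, a)` be in the list
`(2,1), (3,2), (4,2), (5,3), (6,3), (7,3), (8,3), (9,4), (10,4), (11,4), (12,5)`. For all `ε > 0` and `r`
every large `d`-regular graph with vertex sets `W 0, .., W (r-1)` has a partition into nonempty `A, Aᶜ` such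
that every vertex has at least `a` neighbours in its own part and the sizes of the two parts, and of their
intersections with every `W j`, differ by at most `ε n`.
(2) For `(d, a, b, c) = (7, 3, 4, 1/3), (8, 4, 4, 1/125), (9, 4, 5, 1/6), (11, 5, 6, 1/500)` every large
`d`-regular graph has a partition into nonempty `A, Aᶜ` with at least `c n` vertices each, such that every
vertex of `A` has at least `a` neighbours in `A` and every vertex of `Aᶜ` at least `b` neighbours in `Aᶜ`. -/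
theorem result :
    (∀ d a : ℕ, 2 ≤ d →
      ((a : ℝ) < (d + 2) / 2 - d / (2 * Real.pi) * Real.arccos (2 * Real.sqrt ((d : ℝ) - 1) / d) ∨
        (d, a) ∈ ([(2, 1), (3, 2), (4, 2), (5, 3), (6, 3), (7, 3), (8, 3), (9, 4), (10, 4), (11, 4),
          (12, 5)] : List (ℕ × ℕ))) →
      ∀ ε : ℝ, 0 < ε → ∀ r : ℕ, ∃ n₀ : ℕ,
      ∀ (V : Type) [Fintype V] [DecidableEq V] (G : SimpleGraph V) [DecidableRel G.Adj],
      G.IsRegularOfDegree d → n₀ < Fintype.card V → ∀ W : Fin r → Finset V,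
      ∃ A : Finset V, A.Nonempty ∧ Aᶜ.Nonempty ∧
        (∀ v : V, (v ∈ A → a ≤ (G.neighborFinset v ∩ A).card) ∧
          (v ∉ A → a ≤ (G.neighborFinset v ∩ Aᶜ).card)) ∧
        |(A.card : ℝ) - (Aᶜ.card : ℝ)| ≤ ε * Fintype.card V ∧
        ∀ j, |((A ∩ W j).card : ℝ) - ((W j \ A).card : ℝ)| ≤ ε * Fintype.card V) ∧
    ∃ n₀ : ℕ, ∀ (d a b : ℕ) (c : ℝ),
      (d = 7 ∧ a = 3 ∧ b = 4 ∧ c = 1 / 3) ∨ (d = 8 ∧ a = 4 ∧ b = 4 ∧ c = 1 / 125) ∨
        (d = 9 ∧ a = 4 ∧ b = 5 ∧ c = 1 / 6) ∨ (d = 11 ∧ a = 5 ∧ b = 6 ∧ c = 1 / 500) →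
      ∀ (V : Type) [Fintype V] [DecidableEq V] (G : SimpleGraph V) [DecidableRel G.Adj],
      G.IsRegularOfDegree d → n₀ < Fintype.card V →
      ∃ A : Finset V, A.Nonempty ∧ Aᶜ.Nonempty ∧
        c * Fintype.card V ≤ A.card ∧ c * Fintype.card V ≤ Aᶜ.card ∧
        ∀ v : V, (v ∈ A → a ≤ (G.neighborFinset v ∩ A).card) ∧
          (v ∉ A → b ≤ (G.neighborFinset v ∩ Aᶜ).card) := by
  constructor
  · intro d a hd h ε hε r
    refine H49.MX.final_mix hd ?_ hε r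
    rcases h with h | h
    · exact Or.inl h
    · simp only [List.mem_cons, Prod.mk.injEq, List.not_mem_nil, or_false] at h
      by_cases h5 : d = 5 ∧ a = 3
      · exact Or.inr h5
      · refine Or.inl (H49.MX.cond_list ?_)
        simp only [List.mem_cons, Prod.mk.injEq, List.not_mem_nil, or_false]
        tauto
  · obtain ⟨n₁, h₁⟩ := H49.FS.final_y
    refine ⟨n₁, ?_⟩
    intro d a b c hd V _ _ G _ hreg hn
    have hd' : (d = 5 ∧ a = 3 ∧ b = 3 ∧ c = 1 / 50) ∨ (d = 6 ∧ a = 3 ∧ b = 3 ∧ c = 1 / 4) ∨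
        (d = 7 ∧ a = 3 ∧ b = 4 ∧ c = 1 / 3) ∨ (d = 8 ∧ a = 4 ∧ b = 4 ∧ c = 1 / 125) ∨
        (d = 9 ∧ a = 4 ∧ b = 5 ∧ c = 1 / 6) ∨ (d = 11 ∧ a = 5 ∧ b = 6 ∧ c = 1 / 500) :=
      Or.inr (Or.inr hd)
    have hpos : (0 : ℝ) < Fintype.card V := by
      have : 0 < Fintype.card V := (Nat.zero_le _).trans_lt hn
      exact_mod_cast this
    have hc : 0 < c := by
      rcases hd with ⟨-, -, -, rfl⟩ | ⟨-, -, -, rfl⟩ | ⟨-, -, -, rfl⟩ | ⟨-, -, -, rfl⟩ <;> norm_num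
    obtain ⟨A, h1, h2, h3⟩ := h₁ d a b c hd' V G hreg hn
    have hA : (0 : ℝ) < A.card := (mul_pos hc hpos).trans_le h1
    have hAc : (0 : ℝ) < Aᶜ.card := (mul_pos hc hpos).trans_le h2
    exact ⟨A, Finset.card_pos.1 (by exact_mod_cast hA), Finset.card_pos.1 (by exact_mod_cast hAc),
      h1, h2, h3⟩

end Pool.Agent.Results.MP_363a78_co.AsymptoticBisections
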