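import Pool.Agent.H49.LS.Cnv

set_option autoImplicit false

namespace Pool.Agent.Results.MP_363a78_co.FewDefects

open scoped symmDiff

/-- Graphs of maximum degree at most `d`.
(1) Near-bisections with a bounded number of defects, stable against moving clusters outside a bounded set, for `r` prescribed
disjoint sets at the same time. (2) Bisections in which all but `4 (d+1)² √n` vertices have at least as many neighbours in
their own part as in the other. (3) Exact internal partitions with imbalance at most `C (n/S + S)` if the sets of at most `S`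
vertices are sparse, or (4) can be cut into bounded pieces. -/
theorem result (d : ℕ) :
    (∀ s r K : ℕ, 1 ≤ s → 1 ≤ r → 1 ≤ K → ∀ (V : Type) [Fintype V] (G : SimpleGraph V),
      (∀ v, (G.neighborSet v).ncard ≤ d) → s * r * K < Fintype.card V →
      ∀ W : Fin r → Set V, (∀ i j, i ≠ j → Disjoint (W i) (W j)) →
      ∃ A E : Set V, E.ncard ≤ (s * (d + 1)) ^ 2 * (r * K) ∧
        (K : ℤ) * ∑ i, |((A ∩ W i).ncard : ℤ) - ((W i \ A).ncard : ℤ)| ≤
          2 * s * G.edgeSet.ncard + s * (r * K) ^ 2 ∧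
        (∀ Q : Set V, Q.ncard ≤ s → Disjoint Q E →
          {p : V × V | G.Adj p.1 p.2 ∧ p.1 ∈ A ∧ p.2 ∉ A}.ncard ≤
            {p : V × V | G.Adj p.1 p.2 ∧ p.1 ∈ A ∆ Q ∧ p.2 ∉ A ∆ Q}.ncard) ∧
        ∀ v, v ∉ E → (v ∈ A → (G.neighborSet v ∩ Aᶜ).ncard ≤ (G.neighborSet v ∩ A).ncard) ∧
          (v ∉ A → (G.neighborSet v ∩ A).ncard ≤ (G.neighborSet v ∩ Aᶜ).ncard)) ∧
    (∀ (V : Type) [Fintype V] (G : SimpleGraph V), (∀ v, (G.neighborSet v).ncard ≤ d) →
      ∃ A : Set V, |(A.ncard : ℤ) - (Aᶜ.ncard : ℤ)| ≤ 1 ∧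
        {v : V | ¬ ((v ∈ A → (G.neighborSet v ∩ Aᶜ).ncard ≤ (G.neighborSet v ∩ A).ncard) ∧
          (v ∉ A → (G.neighborSet v ∩ A).ncard ≤ (G.neighborSet v ∩ Aᶜ).ncard))}.ncard ≤
          4 * (d + 1) ^ 2 * Nat.sqrt (Fintype.card V)) ∧
    (∀ (r : ℕ) (δ : ℝ), 1 ≤ r → 0 < δ → ∃ C : ℝ, ∀ S : ℕ, 1 ≤ S →
      ∀ (V : Type) [Fintype V] (G : SimpleGraph V), (∀ v, (G.neighborSet v).ncard ≤ d) →
      ((∀ P : Set V, P.ncard ≤ S →
          ({p : V × V | G.Adj p.1 p.2 ∧ p.1 ∈ P ∧ p.2 ∈ P}.ncard : ℝ) ≤ 2 * ((3 / 2 - δ) * P.ncard)) ∨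
        ((∀ v, Even (G.neighborSet v).ncard) ∧ ∀ P : Set V, P.ncard ≤ S →
          ({p : V × V | G.Adj p.1 p.2 ∧ p.1 ∈ P ∧ p.2 ∈ P}.ncard : ℝ) ≤ 2 * ((2 - δ) * P.ncard))) →
      ∀ W : Fin r → Set V, (∀ i j, i ≠ j → Disjoint (W i) (W j)) →
      ∃ A : Set V, (∀ v, (v ∈ A → (G.neighborSet v ∩ Aᶜ).ncard ≤ (G.neighborSet v ∩ A).ncard) ∧
          (v ∉ A → (G.neighborSet v ∩ A).ncard ≤ (G.neighborSet v ∩ Aᶜ).ncard)) ∧
        ∑ i, |((A ∩ W i).ncard : ℝ) - ((W i \ A).ncard : ℝ)| ≤ C * (Fintype.card V / S + S)) ∧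
    (∀ (r s : ℕ) (δ : ℝ), 1 ≤ r → 0 < δ → ∃ C : ℝ, ∀ S : ℕ, 1 ≤ S →
      ∀ (V : Type) [Fintype V] (G : SimpleGraph V), (∀ v, (G.neighborSet v).ncard ≤ d) →
      ((∀ P : Set V, P.ncard ≤ S → ∃ c : V → ℕ, (∀ i, (P ∩ {v | c v = i}).ncard ≤ s) ∧
          ({p : V × V | G.Adj p.1 p.2 ∧ p.1 ∈ P ∧ p.2 ∈ P ∧ c p.1 ≠ c p.2}.ncard : ℝ) ≤
            2 * ((1 / 2 - δ) * P.ncard)) ∨
        ((∀ v, Even (G.neighborSet v).ncard) ∧
          ∀ P : Set V, P.ncard ≤ S → ∃ c : V → ℕ, (∀ i, (P ∩ {v | c v = i}).ncard ≤ s) ∧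
          ({p : V × V | G.Adj p.1 p.2 ∧ p.1 ∈ P ∧ p.2 ∈ P ∧ c p.1 ≠ c p.2}.ncard : ℝ) ≤
            2 * ((1 - δ) * P.ncard))) →
      ∀ W : Fin r → Set V, (∀ i j, i ≠ j → Disjoint (W i) (W j)) →
      ∃ A : Set V, (∀ v, (v ∈ A → (G.neighborSet v ∩ Aᶜ).ncard ≤ (G.neighborSet v ∩ A).ncard) ∧
          (v ∉ A → (G.neighborSet v ∩ A).ncard ≤ (G.neighborSet v ∩ Aᶜ).ncard)) ∧
        ∑ i, |((A ∩ W i).ncard : ℝ) - ((W i \ A).ncard : ℝ)| ≤ C * (Fintype.card V / S + S)) := by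
  classical
  -- the sets `W i` as finsets indexed by ℕ
  have hWW : ∀ (V : Type) [Fintype V] (r : ℕ) (W : Fin r → Set V), (∀ i j, i ≠ j → Disjoint (W i) (W j)) →
      ∃ W' : ℕ → Finset V, (∀ i < r, ∀ j < r, i ≠ j → Disjoint (W' i) (W' j)) ∧
        ∀ i : Fin r, ((W' i : Finset V) : Set V) = W i := by
    intro V _ r W hW
    refine ⟨fun i => if h : i < r then (W ⟨i, h⟩).toFinset else ∅, ?_, ?_⟩
    · intro i hi j hj hij
      simp only [hi, hj, dif_pos]
      rw [Set.disjoint_toFinset]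
      exact hW _ _ fun h => hij (by simpa using h)
    · intro i
      simp
  refine ⟨?_, ?_, ?_, ?_⟩
  · intro s r K hs hr hK V _ G hd hn W hW
    obtain ⟨W', hd', hW'⟩ := hWW V r W hW
    obtain ⟨A, E, h1, h2, h3⟩ := H49.LS.fewD G (d := d) (s := s) (r := r) (K := K)
      (fun v => by rw [← H49.LS.deg_eq]; exact hd v) hs hr hK (by rw [← mul_assoc]; exact hn) hd'
    refine ⟨A, E, by rw [Set.ncard_coe_finset]; exact h1, ?_, ?_, ?_⟩
    · have h4 : ∑ i, |(((A : Set V) ∩ W i).ncard : ℤ) - ((W i \ A).ncard : ℤ)| =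
          ∑ i ∈ Finset.range r, |H49.LS.th (W' i) A| := by
        rw [Finset.sum_range]
        refine Finset.sum_congr rfl fun i _ => ?_
        rw [H49.LS.th_ncard, hW']
      have h5 : G.edgeSet.ncard = G.edgeFinset.card := by
        rw [← Set.ncard_coe_finset]
        simp
      rw [h4, h5]
      push_cast at h2
      exact h2
    · intro Q hQ hQE
      obtain ⟨Q', rfl⟩ := H49.LS.exists_coe Q
      rw [Set.ncard_coe_finset] at hQ
      have h6 := h3 Q' hQ (by rwa [Finset.disjoint_coe] at hQE)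
      rw [H49.LS.cut_ncard, H49.LS.cut_ncard, Finset.coe_symmDiff] at h6
      exact_mod_cast h6
    · intro v hv
      refine H49.LS.sat_one G ?_
      have h6 := h3 {v} (by rw [Finset.card_singleton]; exact hs) (by
        rw [Finset.disjoint_singleton_left]
        exact fun h => hv (by simpa using h))
      rw [H49.NB.cut_flip_set] at h6
      linarith
  · intro V _ G hd
    obtain ⟨A, h1, h2⟩ := H49.LS.bis G (d := d) (fun v => by rw [← H49.LS.deg_eq]; exact hd v)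
    refine ⟨A, ?_, ?_⟩
    · rw [← Finset.coe_compl, Set.ncard_coe_finset, Set.ncard_coe_finset, abs_sub_comm]
      exact h1
    · rw [← H49.LS.uns_ncard]
      exact h2
  · intro r δ hr hδ
    obtain ⟨C₁, hC₁, h₁⟩ := H49.LS.exactD d r 1 hr le_rfl δ hδ
    obtain ⟨C₂, hC₂, h₂⟩ := H49.LS.exactD d r 2 hr (by norm_num) δ hδ
    refine ⟨max C₁ C₂, fun S hS V _ G hd hsp W hW => ?_⟩
    obtain ⟨W', hd', hW'⟩ := hWW V r W hW
    have hd'' : ∀ v, G.degree v ≤ d := fun v => by rw [← H49.LS.deg_eq]; exact hd v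
    have key : ∃ B : Finset V, (∀ v, 0 ≤ H49.NB.W G B {v}) ∧
        (∑ i ∈ Finset.range r, |(H49.LS.th (W' i) B : ℝ)|) ≤ max C₁ C₂ * (Fintype.card V / S + S) := by
      have hpos : (0 : ℝ) ≤ Fintype.card V / S + S := by positivity
      rcases hsp with hsp | ⟨he, hsp⟩
      · obtain ⟨B, hB, hB'⟩ := h₁ S hS V G hd'' (Or.inl rfl) (fun L hL => by
          have h3 := hsp (L : Set V) (by rw [Set.ncard_coe_finset]; exact hL)
          rw [Set.ncard_coe_finset] at h3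
          rw [H49.LS.E_ncard]
          simp only [Finset.mem_coe] at h3
          push_cast
          linarith) W' hd'
        exact ⟨B, hB, hB'.trans (mul_le_mul_of_nonneg_right (le_max_left _ _) hpos)⟩
      · obtain ⟨B, hB, hB'⟩ := h₂ S hS V G hd'' (Or.inr ⟨rfl, fun v => by
          rw [← H49.LS.deg_eq]; exact he v⟩) (fun L hL => by
          have h3 := hsp (L : Set V) (by rw [Set.ncard_coe_finset]; exact hL)
          rw [Set.ncard_coe_finset] at h3
          rw [H49.LS.E_ncard]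
          simp only [Finset.mem_coe] at h3
          push_cast
          linarith) W' hd'
        exact ⟨B, hB, hB'.trans (mul_le_mul_of_nonneg_right (le_max_right _ _) hpos)⟩
    obtain ⟨B, hB, hB'⟩ := key
    refine ⟨B, H49.LS.sat_ncard G hB, ?_⟩
    refine le_trans (le_of_eq ?_) hB'
    rw [Finset.sum_range]
    refine Finset.sum_congr rfl fun i _ => ?_
    rw [H49.LS.th_ncard, hW']
    push_cast
    rfl
  · intro r s δ hr hδ
    obtain ⟨C₁, hC₁, h₁⟩ := H49.LS.exactC d r s 1 hr le_rfl δ hδ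
    obtain ⟨C₂, hC₂, h₂⟩ := H49.LS.exactC d r s 2 hr (by norm_num) δ hδ
    refine ⟨max C₁ C₂, fun S hS V _ G hd hsp W hW => ?_⟩
    obtain ⟨W', hd', hW'⟩ := hWW V r W hW
    have hd'' : ∀ v, G.degree v ≤ d := fun v => by rw [← H49.LS.deg_eq]; exact hd v
    have hcl : ∀ (P : Finset V) (c : V → ℕ) (i : ℕ), ((P : Set V) ∩ {v | c v = i}).ncard =
        (P.filter fun v => c v = i).card := by
      intro P c i
      rw [← Set.ncard_coe_finset]
      congr 1
      ext v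
      simp
    have key : ∃ B : Finset V, (∀ v, 0 ≤ H49.NB.W G B {v}) ∧
        (∑ i ∈ Finset.range r, |(H49.LS.th (W' i) B : ℝ)|) ≤ max C₁ C₂ * (Fintype.card V / S + S) := by
      have hpos : (0 : ℝ) ≤ Fintype.card V / S + S := by positivity
      rcases hsp with hsp | ⟨he, hsp⟩
      · obtain ⟨B, hB, hB'⟩ := h₁ S hS V G hd'' (Or.inl rfl) (fun L hL => by
          obtain ⟨c, hc, hc'⟩ := hsp (L : Set V) (by rw [Set.ncard_coe_finset]; exact hL)
          refine ⟨c, fun i => by rw [← hcl]; exact hc i, ?_⟩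
          rw [Set.ncard_coe_finset] at hc'
          rw [H49.LS.crs_ncard]
          push_cast
          linarith) W' hd'
        exact ⟨B, hB, hB'.trans (mul_le_mul_of_nonneg_right (le_max_left _ _) hpos)⟩
      · obtain ⟨B, hB, hB'⟩ := h₂ S hS V G hd'' (Or.inr ⟨rfl, fun v => by
          rw [← H49.LS.deg_eq]; exact he v⟩) (fun L hL => by
          obtain ⟨c, hc, hc'⟩ := hsp (L : Set V) (by rw [Set.ncard_coe_finset]; exact hL)
          refine ⟨c, fun i => by rw [← hcl]; exact hc i, ?_⟩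
          rw [Set.ncard_coe_finset] at hc'
          rw [H49.LS.crs_ncard]
          push_cast
          linarith) W' hd'
        exact ⟨B, hB, hB'.trans (mul_le_mul_of_nonneg_right (le_max_right _ _) hpos)⟩
    obtain ⟨B, hB, hB'⟩ := key
    refine ⟨B, H49.LS.sat_ncard G hB, ?_⟩
    refine le_trans (le_of_eq ?_) hB'
    rw [Finset.sum_range]
    refine Finset.sum_congr rfl fun i _ => ?_
    rw [H49.LS.th_ncard, hW']
    push_cast
    rfl

end Pool.Agent.Results.MP_363a78_co.FewDefects
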