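import Pool.Agent.H10.IB.Main34
import Pool.Agent.H10.IB.Low
import Pool.Agent.H99.SX.Fin
import Pool.Agent.H49.LS.Bis

set_option autoImplicit false

namespace Pool.Agent.Results.MP_363a78_co.SmallDegrees

private lemma conv (V : Type) [Fintype V] [DecidableEq V] (G : SimpleGraph V) [DecidableRel G.Adj]
    (A : Finset V) (h : ∀ v, 0 ≤ H49.NB.W G A {v}) (v : V) :
    (v ∈ A → (G.neighborFinset v ∩ Aᶜ).card ≤ (G.neighborFinset v ∩ A).card) ∧
      (v ∉ A → (G.neighborFinset v ∩ A).card ≤ (G.neighborFinset v ∩ Aᶜ).card) := by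
  have h1 : ¬ H97.Int.Uns G A v := fun hc => by
    have := (H49.LS.uns_iff G A v).1 hc
    have h2 := h v
    omega
  unfold H97.Int.Uns at h1
  push Not at h1
  rw [H97.Int.nin_eq, H97.Int.nin_eq] at h1
  constructor
  · intro hv
    exact_mod_cast h1.1 hv
  · intro hv
    exact_mod_cast h1.2 hv

/-- Near-bisection internal partitions for the degrees `d ≤ 4` and `d = 6`: every large `d`-regular
graph with `n` vertices has an internal partition whose parts differ in size by at most `2001` if
`d ≤ 4` and by at most `C √n` if `d = 6`. -/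
theorem result :
    ∃ C : ℝ, ∃ n₀ : ℕ, ∀ d : ℕ, d ≤ 4 ∨ d = 6 → ∀ (V : Type) [Fintype V] [DecidableEq V]
      (G : SimpleGraph V) [DecidableRel G.Adj],
      G.IsRegularOfDegree d → n₀ < Fintype.card V →
      ∃ A : Finset V, A.Nonempty ∧ Aᶜ.Nonempty ∧
        |(A.card : ℝ) - (Aᶜ.card : ℝ)| ≤
          (if d ≤ 4 then 2001 else C * Real.sqrt (Fintype.card V)) ∧
        ∀ v : V,
          (v ∈ A → (G.neighborFinset v ∩ Aᶜ).card ≤ (G.neighborFinset v ∩ A).card) ∧
          (v ∉ A → (G.neighborFinset v ∩ A).card ≤ (G.neighborFinset v ∩ Aᶜ).card) := by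
  obtain ⟨C, hC, h6⟩ := H99.SX.six
  obtain ⟨n₁, hn₁⟩ := H10.IB.main34
  refine ⟨C, max (max n₁ 2001) ⌈C ^ 2⌉₊, ?_⟩
  intro d hd V _ _ G _ hreg hn
  have hna : max n₁ 2001 < Fintype.card V := (le_max_left _ _).trans_lt hn
  have hnb : ⌈C ^ 2⌉₊ < Fintype.card V := (le_max_right _ _).trans_lt hn
  by_cases hd4 : d ≤ 4
  · rw [if_pos hd4]
    have h1 : n₁ < Fintype.card V := (le_max_left _ _).trans_lt hna
    have h2 : 2001 < Fintype.card V := (le_max_right _ _).trans_lt hna
    have key : ∃ A : Finset V, H97.Int.Sat G A ∧ H97.Int.Sat G Aᶜ ∧ H97.Int.imb A ≤ 2001 := by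
      by_cases hd2 : d ≤ 2
      · obtain ⟨A, hA, hAc, hi⟩ := H10.IB.low_degree G (fun v => by rw [hreg v]; exact hd2)
        exact ⟨A, hA, hAc, hi.trans (by norm_num)⟩
      · exact hn₁ d (d - 2) (by omega) (by omega) V G (fun v => hreg v) h1
    obtain ⟨A, hA, hAc, hi⟩ := key
    have hcards : (A.card : ℤ) + Aᶜ.card = Fintype.card V := by
      exact_mod_cast Finset.card_add_card_compl A
    have h2' : (2001 : ℤ) < Fintype.card V := by exact_mod_cast h2
    unfold H97.Int.imb at hi
    have hi' := abs_le.mp hi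
    refine ⟨A, ?_, ?_, ?_, ?_⟩
    · rw [← Finset.card_pos]
      have : (0 : ℤ) < A.card := by linarith [hi'.2]
      exact_mod_cast this
    · rw [← Finset.card_pos]
      have : (0 : ℤ) < Aᶜ.card := by linarith [hi'.1]
      exact_mod_cast this
    · rw [abs_sub_comm]
      exact_mod_cast hi
    · intro v
      constructor
      · intro hv
        have := hA v hv
        rw [H97.Int.nin_eq, H97.Int.nin_eq] at this
        exact_mod_cast this
      · intro hv
        have := hAc v (by simpa using hv)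
        rw [H97.Int.nin_eq, H97.Int.nin_eq, compl_compl] at this
        exact_mod_cast this
  · rw [if_neg hd4]
    obtain rfl : d = 6 := by omega
    obtain ⟨A, hA, hth⟩ := h6 V G (fun v => hreg v)
    have hn1 : C ^ 2 < (Fintype.card V : ℝ) :=
      lt_of_le_of_lt (Nat.le_ceil _) (by exact_mod_cast hnb)
    have hn0 : (0 : ℝ) < Fintype.card V := lt_trans (by positivity) hn1
    have hsq : Real.sqrt (Fintype.card V) * Real.sqrt (Fintype.card V) = Fintype.card V :=
      Real.mul_self_sqrt hn0.le
    have hs0 : 0 < Real.sqrt (Fintype.card V) := Real.sqrt_pos.2 hn0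
    have hCs : C < Real.sqrt (Fintype.card V) := Real.lt_sqrt_of_sq_lt hn1
    have hlt : C * Real.sqrt (Fintype.card V) < Fintype.card V := by
      calc C * Real.sqrt (Fintype.card V) < Real.sqrt (Fintype.card V) * Real.sqrt (Fintype.card V) :=
            mul_lt_mul_of_pos_right hCs hs0
        _ = _ := hsq
    have hth2 : (H49.LS.th Finset.univ A : ℝ) = (A.card : ℝ) - (Aᶜ.card : ℝ) := by
      unfold H49.LS.th
      rw [Finset.inter_univ, ← Finset.compl_eq_univ_sdiff]
      push_cast
      ring
    rw [hth2] at hth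
    have hcards : (A.card : ℝ) + (Aᶜ.card : ℝ) = Fintype.card V := by
      exact_mod_cast Finset.card_add_card_compl A
    have hth' := abs_le.mp hth
    refine ⟨A, ?_, ?_, hth, conv V G A hA⟩
    · rw [← Finset.card_pos]
      have : (0 : ℝ) < A.card := by linarith [hth'.1]
      exact_mod_cast this
    · rw [← Finset.card_pos]
      have : (0 : ℝ) < Aᶜ.card := by linarith [hth'.2]
      exact_mod_cast this

end Pool.Agent.Results.MP_363a78_co.SmallDegrees
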